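import Mathlib

/-!
Stability of almost extremal sets without solutions of `α x + β y = z`.
-/

set_option autoImplicit false

namespace Pool.Agent.MP_f29e3e_lc.H57

open Finset

theorem avoid (u v : ℤ) (E : Finset ℤ) (k : ℤ) (hE : (E.card : ℤ) ≤ k) (c1 c2 c3 c4 : ℤ)
    (h : 4 * k < v + 1 - u) :
    ∃ x, u ≤ x ∧ x ≤ v ∧ x - c1 ∉ E ∧ x - c2 ∉ E ∧ c3 - x ∉ E ∧ c4 - x ∉ E := by
  by_contra hc
  push Not at hc
  have h1 : Icc u v ⊆ ((E.image (fun e => e + c1) ∪ E.image (fun e => e + c2)) ∪
      E.image (fun e => c3 - e)) ∪ E.image (fun e => c4 - e) := by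
    intro x hx
    obtain ⟨k1, k2⟩ := mem_Icc.1 hx
    simp only [mem_union, mem_image]
    by_cases a1 : x - c1 ∈ E
    · exact Or.inl (Or.inl (Or.inl ⟨_, a1, by ring⟩))
    by_cases a2 : x - c2 ∈ E
    · exact Or.inl (Or.inl (Or.inr ⟨_, a2, by ring⟩))
    by_cases a3 : c3 - x ∈ E
    · exact Or.inl (Or.inr ⟨_, a3, by ring⟩)
    exact Or.inr ⟨_, hc x k1 k2 a1 a2 a3, by ring⟩
  have h2 := card_le_card h1
  have h3 := card_union_le ((E.image (fun e => e + c1) ∪ E.image (fun e => e + c2)) ∪
      E.image (fun e => c3 - e)) (E.image (fun e => c4 - e))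
  have h4 := card_union_le (E.image (fun e => e + c1) ∪ E.image (fun e => e + c2))
      (E.image (fun e => c3 - e))
  have h5 := card_union_le (E.image (fun e => e + c1)) (E.image (fun e => e + c2))
  have h6 := card_image_le (s := E) (f := fun e => e + c1)
  have h7 := card_image_le (s := E) (f := fun e => e + c2)
  have h8 := card_image_le (s := E) (f := fun e => c3 - e)
  have h9 := card_image_le (s := E) (f := fun e => c4 - e)
  rw [Int.card_Icc] at h2
  omega

/-- Sum-free sets of almost half density without small elements lie almost in the upper half. -/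
theorem stab_one (S : Finset ℤ) (H : ∀ x ∈ S, ∀ y ∈ S, x + y ∉ S) (m z k : ℤ) (hm : m ∈ S)
    (hz : z ∈ S) (h1 : ∀ x ∈ S, m ≤ x ∧ x ≤ z) (hk : z + 1 - 2 * S.card ≤ k) (hk0 : 0 ≤ k)
    (hmk : 9 * k + 4 ≤ m) : 2 * S.card ≤ z + 1 ∧ z ≤ 2 * m + 5 * k + 2 := by
  classical
  set E := (Ioo 0 z).filter (fun x => x ∉ S ∧ z - x ∉ S) with hE
  have hmz := (h1 z hz).1
  have c1 : (E.card : ℤ) + 2 * S.card ≤ z + 1 := by
    have d1 : Disjoint (S.erase z) ((S.erase z).image (fun x => z - x)) := by
      rw [disjoint_left]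
      intro x hx hx'
      obtain ⟨y, hy, e⟩ := mem_image.1 hx'
      exact H x (mem_of_mem_erase hx) y (mem_of_mem_erase hy) (by rwa [← e, sub_add_cancel])
    have d2 : Disjoint E (S.erase z ∪ (S.erase z).image (fun x => z - x)) := by
      rw [disjoint_left]
      intro x hx hx'
      obtain ⟨-, k1, k2⟩ := mem_filter.1 hx
      rcases mem_union.1 hx' with h | h
      · exact k1 (mem_of_mem_erase h)
      · obtain ⟨y, hy, e⟩ := mem_image.1 h
        exact k2 (by rw [← e, sub_sub_cancel]; exact mem_of_mem_erase hy)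
    have d3 : E ∪ (S.erase z ∪ (S.erase z).image (fun x => z - x)) ⊆ Ioo 0 z := by
      intro x hx
      rcases mem_union.1 hx with h | h
      · exact (mem_filter.1 h).1
      · rcases mem_union.1 h with h | h
        · have := h1 x (mem_of_mem_erase h)
          have := (mem_erase.1 h).1
          exact mem_Ioo.2 (by omega)
        · obtain ⟨y, hy, e⟩ := mem_image.1 h
          have := h1 y (mem_of_mem_erase hy)
          have := (mem_erase.1 hy).1
          exact mem_Ioo.2 (by omega)
    have d4 := card_le_card d3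
    rw [card_union_of_disjoint d2, card_union_of_disjoint d1,
      card_image_of_injective _ sub_right_injective, Int.card_Ioo, card_erase_of_mem hz] at d4
    have := card_pos.2 ⟨z, hz⟩
    omega
  have c2 : (E.card : ℤ) ≤ k := by omega
  have F : ∀ x, 0 < x → x < z → x ∉ E → x ∉ S → z - x ∈ S := by
    intro x k1 k2 k3 k4
    by_contra k5
    exact k3 (mem_filter.2 ⟨mem_Ioo.2 ⟨k1, k2⟩, k4, k5⟩)
  have A : ∀ x, 0 < x → x < m → x ∉ E → z - x ∈ S := fun x k1 k2 k3 =>
    F x k1 (by omega) k3 (fun h => by have := h1 x h; omega)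
  have B : ∀ y, m < y → y < 2 * m → y < z → y - m ∉ E → y ∉ E → y ∈ S := by
    intro y k1 k2 k3 k4 k5
    by_contra k6
    refine H m hm _ (F y (by omega) k3 k5 k6) ?_
    have := A (y - m) (by omega) (by omega) k4
    rwa [show m + (z - y) = z - (y - m) by ring]
  refine ⟨by omega, ?_⟩
  by_contra hc
  have C : Ioo (2 * m + 4 * k + 1) (2 * m + 5 * k + 3) ⊆ E := by
    intro y hy
    obtain ⟨k1, k2⟩ := mem_Ioo.1 hy
    refine mem_filter.2 ⟨mem_Ioo.2 (by omega), fun h => ?_, fun h => ?_⟩
    · obtain ⟨x, j1, j2, j3, j4, j5, j6⟩ := avoid (m + 1) (y - m - 1) E k c2 m 0 (y - m) y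
        (by omega)
      refine H x (B x (by omega) (by omega) (by omega) j3 (by simpa using j4)) (y - x)
        (B _ (by omega) (by omega) (by omega) (by rwa [sub_right_comm]) j6) (by simpa using h)
    · obtain ⟨x, j1, j2, j3, -, j5, j6⟩ := avoid (y - 2 * m + 1) (m - 1) E k c2 0 0 (y - m) y
        (by omega)
      refine H _ h (y - x) (B _ (by omega) (by omega) (by omega) (by rwa [sub_right_comm]) j6) ?_
      rw [show z - y + (y - x) = z - x by ring]
      exact A x (by omega) (by omega) (by simpa using j3)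
  have c3 := card_le_card C
  rw [Int.card_Ioo] at c3
  omega

theorem stab (S : Finset ℤ) (α β T W : ℤ) (hα : 1 ≤ α) (hαβ : α ≤ β) (hW : 1 ≤ W) (hT : 0 ≤ T)
    (H : ∀ x ∈ S, ∀ y ∈ S, α * x + β * y ∉ S)
    (h1 : ∀ x ∈ S, 40 * (α + β) * W ≤ x ∧ x ≤ (α + β) * T + W)
    (h2 : (α + β - 1) * T - W ≤ S.card) : ∀ x ∈ S, T - 40 * (α + β) * W < x := by
  classical
  intro x0 hx0
  have hne : S.Nonempty := ⟨x0, hx0⟩
  set m := S.min' hne with hmdef
  have hm : m ∈ S := min'_mem _ _
  have hm1 : ∀ x ∈ S, m ≤ x := fun x hx => min'_le _ _ hx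
  refine lt_of_lt_of_le ?_ (hm1 x0 hx0)
  set N := (α + β) * T + W with hN
  have hK := (h1 m hm).1
  have hαW : 0 ≤ (α - 1) * W := by positivity
  have hβW : 0 ≤ (β - 1) * W := mul_nonneg (by omega) (by omega)
  have hm0 : 0 < m := by linarith only [hW, hK, hαW, hβW]
  have inj : ∀ c : ℤ, Function.Injective (fun x : ℤ => α * x + c) := fun c x y h => by
    simpa [show α ≠ 0 by omega] using h
  rcases lt_or_eq_of_le hαβ with h | h
  · set X := (N - β * m) / α with hX
    have e1 : α * X ≤ N - β * m := Int.mul_ediv_self_le (by omega)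
    have e2 : N - β * m < α * X + α := Int.lt_mul_ediv_self_add (by omega)
    have d1 : Disjoint S ((S.filter (· ≤ X)).image (fun x => α * x + β * m)) := by
      rw [disjoint_right]
      intro x hx
      obtain ⟨y, hy, rfl⟩ := mem_image.1 hx
      exact H y (mem_filter.1 hy).1 m hm
    have d2 : S ∪ (S.filter (· ≤ X)).image (fun x => α * x + β * m) ⊆ Icc m N := by
      intro x hx
      rcases mem_union.1 hx with h | h
      · exact mem_Icc.2 ⟨hm1 x h, (h1 x h).2⟩
      · obtain ⟨y, hy, rfl⟩ := mem_image.1 h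
        obtain ⟨k1, k2⟩ := mem_filter.1 hy
        have := hm1 y k1
        exact mem_Icc.2 ⟨by nlinarith only [hW, hK, hαW, hβW, this], by nlinarith only [hα, e1, k2]⟩
    have d3 := card_le_card d2
    rw [card_union_of_disjoint d1, card_image_of_injective _ (inj _), Int.card_Icc] at d3
    have d4 : S.filter (fun x => ¬ x ≤ X) ⊆ Ioc X N := fun x hx =>
      mem_Ioc.2 ⟨not_le.1 (mem_filter.1 hx).2, (h1 x (mem_filter.1 hx).1).2⟩
    have d5 := card_le_card d4
    rw [Int.card_Ioc] at d5
    have d6 := card_filter_add_card_filter_not (s := S) (fun x => x ≤ X)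
    have d7 := (h1 m hm).2
    have d8 : X ≤ N := by
      by_contra hc
      nlinarith only [hW, hK, hαW, hβW, e1, d7, hc]
    have d9 : 2 * (S.card : ℤ) ≤ 2 * N - m - X + 1 := by omega
    have d10 : X ≤ 2 * T + 4 * W - m + 1 := by linarith only [h2, d9]
    by_contra hc
    have d11 : 40 * (α + β) * W ≤ T - m := by omega
    have d12 : (β - α) * (T - m) < α * (4 * W + 2) := by nlinarith only [hα, hW, h2, e2, d9]
    have d13 : T - m ≤ (β - α) * (T - m) := by nlinarith only [hW, hαW, hβW, h, hc]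
    nlinarith only [hW, hαW, hβW, hc, d12, d13]
  subst h
  rcases lt_or_eq_of_le hα with h | h
  · set q := N / α with hq
    have e1 : α * q ≤ N := Int.mul_ediv_self_le (by omega)
    have e2 : 2 * T ≤ q := Int.le_ediv_of_mul_le (by omega) (by linarith only [hW])
    set q' := (q - m) / α with hq'
    have e3 : α * q' ≤ q - m := Int.mul_ediv_self_le (by omega)
    have e4 : q - m < α * q' + α := Int.lt_mul_ediv_self_add (by omega)
    have e5 : q ≤ N := by nlinarith only [hα, hT, e1, e2]
    set S2 := S.filter (fun x => q' - m < x ∧ x ≤ q - m) with hS2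
    set U := S.filter (fun x => q - m < x) with hU
    have d1 : Disjoint U (S2.image (fun x => α * x + α * m)) := by
      rw [disjoint_right]
      intro x hx hx'
      obtain ⟨y, hy, rfl⟩ := mem_image.1 hx
      exact H y (mem_filter.1 hy).1 m hm (mem_filter.1 hx').1
    have d2 : U ∪ S2.image (fun x => α * x + α * m) ⊆ Ioc (q - m) N := by
      intro x hx
      rcases mem_union.1 hx with h | h
      · exact mem_Ioc.2 ⟨(mem_filter.1 h).2, (h1 x (mem_filter.1 h).1).2⟩
      · obtain ⟨y, hy, rfl⟩ := mem_image.1 h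
        obtain ⟨k1, k2, k3⟩ := mem_filter.1 hy
        exact mem_Ioc.2 ⟨by nlinarith only [hα, e4, k2], by nlinarith only [hα, e1, k3]⟩
    have d3 := card_le_card d2
    rw [card_union_of_disjoint d1, card_image_of_injective _ (inj _), Int.card_Ioc] at d3
    have d4 : S ⊆ Icc m (q' - m) ∪ (S2 ∪ U) := by
      intro x hx
      have := hm1 x hx
      simp only [hS2, hU, mem_union, mem_Icc, mem_filter, hx, true_and]
      omega
    have d5 := (card_le_card d4).trans ((card_union_le _ _).trans
      (Nat.add_le_add_left (card_union_le _ _) _))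
    rw [Int.card_Icc] at d5
    by_cases hc : q' - m < m
    · have d6 : (S.card : ℤ) ≤ N - q + m := by omega
      linarith only [hW, hαW, h2, e2, d6]
    · exfalso
      have d6 : (S.card : ℤ) ≤ N - q + q' - m + 1 := by omega
      have d7 : 2 * q' ≤ q - m := by nlinarith only [hW, hT, h2, hK, h, e2, e3, d6]
      linarith only [hW, hαW, h2, hK, e2, d6, d7]
  · subst h
    obtain ⟨k1, k2⟩ := stab_one S (by simpa only [one_mul] using H) m (S.max' hne) (3 * W + 1) hm (max'_mem _ _)
      (fun x hx => ⟨hm1 x hx, le_max' _ _ hx⟩)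
      (by have := (h1 _ (max'_mem _ hne)).2; omega) (by omega) (by omega)
    omega

end Pool.Agent.MP_f29e3e_lc.H57
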